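import Pool.Agent.Helper80.Stack.Goals

set_option autoImplicit false

/-!
# Packet DECOMP: the node structure of a triangulated sphere
-/

namespace Pool.Agent.Helper36.Stk

open Classical Pool.Agent.Helper80.Stk

noncomputable section

variable {W Tr : Type} [Fintype W] [Fintype Tr]

/-- the invariant of the construction -/
structure Inv (K : SC W Tr) (n : ℕ) (Nm : ℕ → Finset ℕ) (nd : W → ℕ) (dn : Finset W)
    (G : Finset (Finset Tr)) : Prop where
  a1 : NStr 3 Nm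
  a2 : ∀ m, n ≤ m → Nm m = ∅
  a3 : ∀ v ∈ dn, nd v < n
  b : ∀ S ∈ G, S.Nonempty ∧ ∃ (a b c : List W) (x y z : ℕ), Reg K S a b c ∧
    (∀ v ∈ a ++ b ++ c, v ∈ dn) ∧ NAdj Nm x y ∧ NAdj Nm x z ∧ NAdj Nm y z ∧
    (∀ v ∈ a, nd v = x) ∧ (∀ v ∈ b, nd v = y) ∧ (∀ v ∈ c, nd v = z)
  c : ∀ S ∈ G, ∀ S' ∈ G, S ≠ S' → Disjoint S S'
  d : ∀ S ∈ G, ∀ v, (∀ t, v ∈ K.vt t → t ∈ S) → v ∉ dn
  e : ∀ v, v ∉ dn → ∃ S ∈ G, ∀ t, v ∈ K.vt t → t ∈ S
  f : ∀ t, (∃ S ∈ G, t ∈ S) ∨ ((∀ v ∈ K.vt t, v ∈ dn) ∧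
    ∀ u ∈ K.vt t, ∀ v ∈ K.vt t, NAdj Nm (nd u) (nd v))
  g : ∀ m h, (dn.filter (fun v => nd v = m ∧ K.ht v = h)).card ≤ 3

lemma NAdj.symm' {Nm : ℕ → Finset ℕ} {m n : ℕ} (h : NAdj Nm m n) : NAdj Nm n m := by
  rcases h with h | h | h
  · exact Or.inl h.symm
  · exact Or.inr (Or.inr h)
  · exact Or.inr (Or.inl h)

lemma NAdj.refl' (Nm : ℕ → Finset ℕ) (m : ℕ) : NAdj Nm m m := Or.inl rfl

lemma NAdj.mono' {Nm Nm' : ℕ → Finset ℕ} (hN : ∀ m, Nm m ⊆ Nm' m) {m n : ℕ} (h : NAdj Nm m n) :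
    NAdj Nm' m n := by
  rcases h with h | h | h
  · exact Or.inl h
  · exact Or.inr (Or.inl (hN _ h))
  · exact Or.inr (Or.inr (hN _ h))

/-- one step -/
lemma step (hSplit : StmtSplit) (K : SC W Tr) (n : ℕ) (Nm : ℕ → Finset ℕ) (nd : W → ℕ)
    (dn : Finset W) (G : Finset (Finset Tr)) (I : Inv K n Nm nd dn G) (hG : G.Nonempty) :
    ∃ (n' : ℕ) (Nm' : ℕ → Finset ℕ) (nd' : W → ℕ) (dn' : Finset W) (G' : Finset (Finset Tr)),
      Inv K n' Nm' nd' dn' G' ∧ (G'.biUnion id).card < (G.biUnion id).card := by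
  obtain ⟨S, hS⟩ := hG
  obtain ⟨hSne, a, b, c, x, y, z, hreg, hdn, hxy, hxz, hyz, hax, hby, hcz⟩ := I.b S hS
  obtain ⟨τ, Y, R, A, B, C, hτS, hcov, hRS, hτR, hdisj, hYint, hYarc, hYR, hYh, hτv, hR⟩ :=
    hSplit W Tr K S a b c hreg hSne
  have hYd : ∀ v ∈ Y, v ∉ dn := fun v hv => I.d S hS v (hYint v hv)
  have hxn : x < n := by
    obtain ⟨v, hv⟩ := List.exists_mem_of_ne_nil a hreg.ha
    rw [← hax v hv]
    exact I.a3 v (hdn v (by simp [hv]))
  have hyn : y < n := by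
    obtain ⟨v, hv⟩ := List.exists_mem_of_ne_nil b hreg.hb
    rw [← hby v hv]
    exact I.a3 v (hdn v (by simp [hv]))
  have hzn : z < n := by
    obtain ⟨v, hv⟩ := List.exists_mem_of_ne_nil c hreg.hc
    rw [← hcz v hv]
    exact I.a3 v (hdn v (by simp [hv]))
  set Nm' : ℕ → Finset ℕ := Function.update Nm n {x, y, z} with hNm'
  have hNn : Nm' n = {x, y, z} := Function.update_self _ _ _
  have hNo : ∀ m, m ≠ n → Nm' m = Nm m := fun m hm => Function.update_of_ne hm _ _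
  have hmono : ∀ m, Nm m ⊆ Nm' m := by
    intro m
    by_cases hm : m = n
    · rw [hm, I.a2 n le_rfl]; exact Finset.empty_subset _
    · rw [hNo m hm]
  set nd' : W → ℕ := fun v => if v ∈ Y then n else nd v with hnd'
  have hndY : ∀ v ∈ Y, nd' v = n := fun v hv => if_pos hv
  have hndo : ∀ v, v ∉ Y → nd' v = nd v := fun v hv => if_neg hv
  have hndd : ∀ v ∈ dn, nd' v = nd v := fun v hv => if_neg fun h => hYd v h hv
  -- the labels of the new arcs
  have hlab : ∀ p ∈ ({x, y, z, n} : Finset ℕ), ∀ q ∈ ({x, y, z, n} : Finset ℕ), NAdj Nm' p q := by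
    have e1 : NAdj Nm' x y := NAdj.mono' hmono hxy
    have e2 : NAdj Nm' x z := NAdj.mono' hmono hxz
    have e3 : NAdj Nm' y z := NAdj.mono' hmono hyz
    have e4 : NAdj Nm' x n := Or.inr (Or.inl (by rw [hNn]; simp))
    have e5 : NAdj Nm' y n := Or.inr (Or.inl (by rw [hNn]; simp))
    have e6 : NAdj Nm' z n := Or.inr (Or.inl (by rw [hNn]; simp))
    intro p hp q hq
    simp only [Finset.mem_insert, Finset.mem_singleton] at hp hq
    rcases hp with rfl | rfl | rfl | rfl <;> rcases hq with rfl | rfl | rfl | rfl <;>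
      first
        | exact NAdj.refl' _ _
        | assumption
        | exact NAdj.symm' e1
        | exact NAdj.symm' e2
        | exact NAdj.symm' e3
        | exact NAdj.symm' e4
        | exact NAdj.symm' e5
        | exact NAdj.symm' e6
  have hvlab : ∀ v, (v ∈ a ++ b ++ c ∨ v ∈ Y) → v ∈ dn ∪ Y ∧ nd' v ∈ ({x, y, z, n} : Finset ℕ) := by
    rintro v (hv | hv)
    · have h1 := hdn v hv
      refine ⟨Finset.mem_union_left _ h1, ?_⟩
      rw [hndd v h1]
      simp only [List.mem_append] at hv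
      rcases hv with (hv | hv) | hv
      · rw [hax v hv]; simp
      · rw [hby v hv]; simp
      · rw [hcz v hv]; simp
    · refine ⟨Finset.mem_union_right _ hv, ?_⟩
      rw [hndY v hv]; simp
  have harc : ∀ X : List W, ((∀ v ∈ X, v ∈ a) ∨ (∀ v ∈ X, v ∈ b) ∨ (∀ v ∈ X, v ∈ c) ∨
      (∀ v ∈ X, v ∈ Y)) → (∀ v ∈ X, v ∈ dn ∪ Y) ∧
      ∃ p ∈ ({x, y, z, n} : Finset ℕ), ∀ v ∈ X, nd' v = p := by
    rintro X (hX | hX | hX | hX)
    · refine ⟨fun v hv => (hvlab v (Or.inl (by simp [hX v hv]))).1, x, by simp, fun v hv => ?_⟩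
      rw [hndd v (hdn v (by simp [hX v hv])), hax v (hX v hv)]
    · refine ⟨fun v hv => (hvlab v (Or.inl (by simp [hX v hv]))).1, y, by simp, fun v hv => ?_⟩
      rw [hndd v (hdn v (by simp [hX v hv])), hby v (hX v hv)]
    · refine ⟨fun v hv => (hvlab v (Or.inl (by simp [hX v hv]))).1, z, by simp, fun v hv => ?_⟩
      rw [hndd v (hdn v (by simp [hX v hv])), hcz v (hX v hv)]
    · exact ⟨fun v hv => (hvlab v (Or.inr (hX v hv))).1, n, by simp, fun v hv => hndY v (hX v hv)⟩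
  set G' : Finset (Finset Tr) := G.erase S ∪ (Finset.univ.image R).filter (·.Nonempty) with hG'
  have hG'mem : ∀ S', S' ∈ G' ↔ (S' ≠ S ∧ S' ∈ G) ∨ (∃ i, R i = S') ∧ S'.Nonempty := by
    intro S'
    simp [hG', Finset.mem_union, Finset.mem_erase, Finset.mem_filter]
  have hint : ∀ v, (∀ t, v ∈ K.vt t → t ∈ S) → ∀ S' ∈ G, S' ≠ S →
      ¬ ∀ t, v ∈ K.vt t → t ∈ S' := by
    intro v h1 S' hS' hne h2
    obtain ⟨t, ht⟩ := K.cov v
    exact Finset.disjoint_left.mp (I.c S' hS' S hS hne) (h2 t ht) (h1 t ht)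
  refine ⟨n + 1, Nm', nd', dn ∪ Y, G', ⟨⟨?_, ?_, ?_⟩, ?_, ?_, ?_, ?_, ?_, ?_, ?_, ?_⟩, ?_⟩
  · -- a1, earlier
    intro m k hk
    by_cases hm : m = n
    · subst hm
      rw [hNn] at hk
      simp only [Finset.mem_insert, Finset.mem_singleton] at hk
      rcases hk with rfl | rfl | rfl <;> assumption
    · rw [hNo m hm] at hk
      exact I.a1.1 m k hk
  · intro m
    by_cases hm : m = n
    · subst hm; rw [hNn]; exact Finset.card_le_three
    · rw [hNo m hm]; exact I.a1.2.1 m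
  · intro m p hp q hq
    by_cases hm : m = n
    · subst hm
      rw [hNn] at hp hq
      refine hlab p ?_ q ?_
      · simp only [Finset.mem_insert, Finset.mem_singleton] at hp ⊢; tauto
      · simp only [Finset.mem_insert, Finset.mem_singleton] at hq ⊢; tauto
    · rw [hNo m hm] at hp hq
      exact NAdj.mono' hmono (I.a1.2.2 m p hp q hq)
  · -- a2
    intro m hm
    rw [hNo m (by omega)]
    exact I.a2 m (by omega)
  · -- a3
    intro v hv
    by_cases hvY : v ∈ Y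
    · rw [hndY v hvY]; omega
    · rw [hndo v hvY]
      have := I.a3 v ((Finset.mem_union.mp hv).resolve_right hvY)
      omega
  · -- b
    intro S' hS'
    rcases (hG'mem S').mp hS' with ⟨h1, h2⟩ | ⟨⟨i, rfl⟩, hne⟩
    · obtain ⟨g1, a', b', c', x', y', z', g2, g3, g4, g5, g6, g7, g8, g9⟩ := I.b S' h2
      refine ⟨g1, a', b', c', x', y', z', g2, fun v hv => Finset.mem_union_left _ (g3 v hv),
        NAdj.mono' hmono g4, NAdj.mono' hmono g5, NAdj.mono' hmono g6, ?_, ?_, ?_⟩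
      · intro v hv; rw [hndd v (g3 v (by simp [hv])), g7 v hv]
      · intro v hv; rw [hndd v (g3 v (by simp [hv])), g8 v hv]
      · intro v hv; rw [hndd v (g3 v (by simp [hv])), g9 v hv]
    · obtain ⟨g1, g2⟩ := hR i hne
      obtain ⟨u1, x', hx', u2⟩ := harc (A i) (g2 (A i) (by simp))
      obtain ⟨u3, y', hy', u4⟩ := harc (B i) (g2 (B i) (by simp))
      obtain ⟨u5, z', hz', u6⟩ := harc (C i) (g2 (C i) (by simp))
      refine ⟨hne, A i, B i, C i, x', y', z', g1, ?_, hlab _ hx' _ hy', hlab _ hx' _ hz',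
        hlab _ hy' _ hz', u2, u4, u6⟩
      intro v hv
      simp only [List.mem_append] at hv
      rcases hv with (hv | hv) | hv
      · exact u1 v hv
      · exact u3 v hv
      · exact u5 v hv
  · -- c
    intro S1 h1 S2 h2 hne
    rcases (hG'mem S1).mp h1 with ⟨h3, h4⟩ | ⟨⟨i, rfl⟩, _⟩ <;>
      rcases (hG'mem S2).mp h2 with ⟨h5, h6⟩ | ⟨⟨i', rfl⟩, _⟩
    · exact I.c S1 h4 S2 h6 hne
    · exact Finset.disjoint_of_subset_right (hRS i') (I.c S1 h4 S hS h3)
    · exact (Finset.disjoint_of_subset_right (hRS i) (I.c S2 h6 S hS h5)).symm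
    · exact hdisj i i' fun h => hne (by rw [h])
  · -- d
    intro S' hS' v hv hvd
    rcases (hG'mem S').mp hS' with ⟨h1, h2⟩ | ⟨⟨i, rfl⟩, hne⟩
    · rcases Finset.mem_union.mp hvd with h3 | h3
      · exact I.d S' h2 v hv h3
      · exact hint v (hYint v h3) S' h2 h1 hv
    · rcases Finset.mem_union.mp hvd with h3 | h3
      · exact I.d S hS v (fun t ht => hRS i (hv t ht)) h3
      · obtain ⟨t, ht1, ht2⟩ := hYR v h3 i
        exact ht2 (hv t ht1)
  · -- e
    intro v hv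
    have hv1 : v ∉ dn := fun h => hv (Finset.mem_union_left _ h)
    have hv2 : v ∉ Y := fun h => hv (Finset.mem_union_right _ h)
    obtain ⟨S0, hS0, h0⟩ := I.e v hv1
    by_cases hSS : S0 = S
    · subst hSS
      obtain ⟨t, ht⟩ := K.cov v
      rcases hcov t (h0 t ht) with h1 | ⟨i, hi⟩
      · subst h1
        exact absurd (hvlab v (hτv v ht)).1 hv
      · have hne : (R i).Nonempty := ⟨t, hi⟩
        obtain ⟨g1, g2⟩ := hR i hne
        have hvn : v ∉ A i ++ B i ++ C i := by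
          intro hmem
          simp only [List.mem_append] at hmem
          rcases hmem with (hm | hm) | hm
          · exact hv ((harc (A i) (g2 (A i) (by simp))).1 v hm)
          · exact hv ((harc (B i) (g2 (B i) (by simp))).1 v hm)
          · exact hv ((harc (C i) (g2 (C i) (by simp))).1 v hm)
        rcases K.star g1.bd hvn with h2 | h2
        · exact ⟨R i, (hG'mem _).mpr (Or.inr ⟨⟨i, rfl⟩, hne⟩), h2⟩
        · exact absurd hi (h2 t ht)
    · exact ⟨S0, (hG'mem _).mpr (Or.inl ⟨hSS, hS0⟩), h0⟩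
  · -- f
    intro t
    rcases I.f t with ⟨S0, hS0, h0⟩ | ⟨h1, h2⟩
    · by_cases hSS : S0 = S
      · subst hSS
        rcases hcov t h0 with h1 | ⟨i, hi⟩
        · subst h1
          right
          refine ⟨fun v hv => (hvlab v (hτv v hv)).1, fun u hu v hv => ?_⟩
          exact hlab _ (hvlab u (hτv u hu)).2 _ (hvlab v (hτv v hv)).2
        · exact Or.inl ⟨R i, (hG'mem _).mpr (Or.inr ⟨⟨i, rfl⟩, ⟨t, hi⟩⟩), hi⟩
      · exact Or.inl ⟨S0, (hG'mem _).mpr (Or.inl ⟨hSS, hS0⟩), h0⟩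
    · right
      refine ⟨fun v hv => Finset.mem_union_left _ (h1 v hv), fun u hu v hv => ?_⟩
      rw [hndd u (h1 u hu), hndd v (h1 v hv)]
      exact NAdj.mono' hmono (h2 u hu v hv)
  · -- g
    intro m h
    by_cases hm : m = n
    · subst hm
      refine (Finset.card_le_card ?_).trans (hYh h)
      intro v hv
      obtain ⟨h1, h2, h3⟩ := Finset.mem_filter.mp hv
      refine Finset.mem_filter.mpr ⟨?_, h3⟩
      by_contra hvY
      rw [hndo v hvY] at h2
      have := I.a3 v ((Finset.mem_union.mp h1).resolve_right hvY)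
      omega
    · refine (Finset.card_le_card ?_).trans (I.g m h)
      intro v hv
      obtain ⟨h1, h2, h3⟩ := Finset.mem_filter.mp hv
      have hvY : v ∉ Y := by
        intro hvY
        rw [hndY v hvY] at h2
        exact hm h2.symm
      rw [hndo v hvY] at h2
      exact Finset.mem_filter.mpr ⟨(Finset.mem_union.mp h1).resolve_right hvY, h2, h3⟩
  · -- measure
    have hτG : τ ∈ G.biUnion id := Finset.mem_biUnion.mpr ⟨S, hS, hτS⟩
    refine lt_of_le_of_lt (Finset.card_le_card ?_) (Finset.card_erase_lt_of_mem hτG)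
    intro t ht
    obtain ⟨S', hS', ht'⟩ := Finset.mem_biUnion.mp ht
    simp only [id] at ht'
    rcases (hG'mem S').mp hS' with ⟨h1, h2⟩ | ⟨⟨i, rfl⟩, hne⟩
    · refine Finset.mem_erase.mpr ⟨?_, Finset.mem_biUnion.mpr ⟨S', h2, ht'⟩⟩
      rintro rfl
      exact Finset.disjoint_left.mp (I.c S' h2 S hS h1) ht' hτS
    · refine Finset.mem_erase.mpr ⟨?_, Finset.mem_biUnion.mpr ⟨S, hS, hRS i ht'⟩⟩
      rintro rfl
      exact hτR i ht'

/-- the initial state -/
lemma start (K : SC W Tr) : ∃ G, Inv K 1 (fun _ => ∅) (fun _ => 0) (K.vt K.t0) G := by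
  refine ⟨({Finset.univ \ {K.t0}} : Finset (Finset Tr)).filter (·.Nonempty), ?_⟩
  have hG : ∀ S, S ∈ ({Finset.univ \ {K.t0}} : Finset (Finset Tr)).filter (·.Nonempty) ↔
      S = Finset.univ \ {K.t0} ∧ S.Nonempty := by
    intro S; simp [Finset.mem_filter]
  have hmem : ∀ t, t ∈ (Finset.univ \ {K.t0} : Finset Tr) ↔ t ≠ K.t0 := by
    intro t; simp
  refine ⟨⟨?_, ?_, ?_⟩, fun _ _ => rfl, fun _ _ => Nat.one_pos, ?_, ?_, ?_, ?_, ?_, ?_⟩
  · intro n m hm; simp at hm
  · intro n; simp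
  · intro n a ha; simp at ha
  · intro S hS
    obtain ⟨rfl, hne⟩ := (hG S).mp hS
    obtain ⟨u, v, w, huv, huw, hvw, ht⟩ := Finset.card_eq_three.mp (K.card3 K.t0)
    refine ⟨hne, [u], [v], [w], 0, 0, 0, ⟨by simp, ?_, by simp, by simp, by simp, ?_⟩, ?_,
      NAdj.refl' _ _, NAdj.refl' _ _, NAdj.refl' _ _, ?_, ?_, ?_⟩
    · simp [huv, huw, hvw]
    · rw [bd_sdiff K.vt (Finset.subset_univ _), K.bd_univ, bd_single K.vt ht huv hvw huw, zero_add]
      show _ = pth [u, v, w, u]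
      rw [pth_cons, pth_cons, pth_pair, add_assoc]
    · intro p hp
      rw [ht]
      simpa using hp
    · simp
    · simp
    · simp
  · intro S hS S' hS' hne
    exact absurd (((hG S).mp hS).1.trans ((hG S').mp hS').1.symm) hne
  · intro S hS v hv hv0
    obtain ⟨rfl, -⟩ := (hG S).mp hS
    exact (hmem _).mp (hv K.t0 hv0) rfl
  · intro v hv
    obtain ⟨t, ht⟩ := K.cov v
    have h1 : ∀ t, v ∈ K.vt t → t ∈ (Finset.univ \ {K.t0} : Finset Tr) := by
      intro t ht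
      rw [hmem]
      rintro rfl
      exact hv ht
    exact ⟨_, (hG _).mpr ⟨rfl, ⟨t, h1 t ht⟩⟩, h1⟩
  · intro t
    by_cases ht : t = K.t0
    · right
      subst ht
      exact ⟨fun v hv => hv, fun _ _ _ _ => NAdj.refl' _ _⟩
    · left
      have h1 : t ∈ (Finset.univ \ {K.t0} : Finset Tr) := (hmem t).mpr ht
      exact ⟨_, (hG _).mpr ⟨rfl, ⟨t, h1⟩⟩, h1⟩
  · intro m h
    exact (Finset.card_filter_le _ _).trans (K.card3 K.t0).le

/-- packet DECOMP -/
theorem pf_Decomp (hS : StmtSplit) : StmtDecomp := by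
  intro W Tr _ _ K
  have key : ∀ (N n : ℕ) (Nm : ℕ → Finset ℕ) (nd : W → ℕ) (dn : Finset W)
      (G : Finset (Finset Tr)), (G.biUnion id).card ≤ N → Inv K n Nm nd dn G →
      ∃ (n' : ℕ) (Nm' : ℕ → Finset ℕ) (nd' : W → ℕ) (dn' : Finset W), Inv K n' Nm' nd' dn' ∅ := by
    intro N
    induction N with
    | zero =>
      intro n Nm nd dn G hG I
      have hGe : G = ∅ := by
        by_contra hne
        obtain ⟨S, hS'⟩ := Finset.nonempty_iff_ne_empty.mpr hne
        obtain ⟨t, ht⟩ := (I.b S hS').1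
        have h1 : t ∈ G.biUnion id := Finset.mem_biUnion.mpr ⟨S, hS', ht⟩
        have := Finset.card_pos.mpr ⟨t, h1⟩
        omega
      subst hGe
      exact ⟨n, Nm, nd, dn, I⟩
    | succ N ih =>
      intro n Nm nd dn G hG I
      by_cases hGe : G = ∅
      · subst hGe
        exact ⟨n, Nm, nd, dn, I⟩
      · obtain ⟨n', Nm', nd', dn', G', I', h'⟩ :=
          step hS K n Nm nd dn G I (Finset.nonempty_iff_ne_empty.mpr hGe)
        exact ih n' Nm' nd' dn' G' (by omega) I'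
  obtain ⟨G, I0⟩ := start K
  obtain ⟨n, Nm, nd, dn, I⟩ := key _ _ _ _ _ G le_rfl I0
  have hdn : dn = Finset.univ := by
    ext v
    simp only [Finset.mem_univ, iff_true]
    by_contra hv
    obtain ⟨S, hS', -⟩ := I.e v hv
    simp at hS'
  refine ⟨Nm, nd, I.a1, ?_, ?_⟩
  · intro t u hu v hv
    rcases I.f t with ⟨S, hS', -⟩ | ⟨-, h⟩
    · simp at hS'
    · exact h u hu v hv
  · intro m h
    have := I.g m h
    rwa [hdn] at this

end

end Pool.Agent.Helper36.Stk
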